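import Pool.Agent.SQG.Fin2

/-!
# Dissecting a square into a prime number of congruent pieces: a criterion in the group ring

Let `p` be an odd prime, `A`, `P i = g i A + c i` as in `FiniteOrderRotations` (the interiors of the pieces need not be
connected here), `Γ` the group generated by the `g i * (g j)ᵀ`.  There is no such dissection of the unit square if
* (finite case) `e` lists the elements of a finite group `G` of orthogonal matrices containing all `g i * (g i0)ᵀ`, with
  `o` different lines spanned by the vectors `h (1, 0)`, `h ∈ G`, and `p ^ o` does not divide the determinant of the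
  matrix `(h, k) ↦ number of the i with h * g i * (g i0)ᵀ = k`, `h, k ∈ G` (the group determinant), or
* (general case) the element `∑ i, [g i * (g i0)ᵀ]` of the group ring of `Γ` over the field with `p` elements is no zero
  divisor: the only finitely supported function `X` on `Γ` with values in that field and
  `∑ i, X (k * g i * (g i0)ᵀ) = 0` for all `k ∈ Γ` is `0`.
-/

set_option autoImplicit false

namespace Pool.Agent.Results.MP_a5d497_co.GroupDeterminant

theorem result (p : ℕ) (hp : p.Prime) (hp2 : p ≠ 2) (A : Set (EuclideanSpace ℝ (Fin 2)))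
    (g : Fin p → Matrix (Fin 2) (Fin 2) ℝ) (hg : ∀ i, g i * (g i).transpose = 1)
    (c : Fin p → EuclideanSpace ℝ (Fin 2)) (P : Fin p → Set (EuclideanSpace ℝ (Fin 2)))
    (hP : ∀ i, P i = {x | ∃ a ∈ A, ∀ k, x k = (∑ l, g i k l * a l) + c i k})
    (hreg : ∀ i, closure (interior (P i)) = P i)
    (hdisj : ∀ i j, i ≠ j → Disjoint (interior (P i)) (interior (P j)))
    (hcov : (⋃ i, P i) = {x : EuclideanSpace ℝ (Fin 2) | ∀ c, 0 ≤ x c ∧ x c ≤ 1})
    -- the boundary of `A` lies in `C` and in the lines `α x + β y = γ` for `(α, β, γ)` in the finite set `T`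
    (C : Set (EuclideanSpace ℝ (Fin 2))) (hC : IsClosed C)
    (hCl : ∀ l : ℝ × ℝ × ℝ, (l.1 ≠ 0 ∨ l.2.1 ≠ 0) → (C ∩ {x | l.1 * x 0 + l.2.1 * x 1 = l.2.2}).Finite)
    (T : Finset (ℝ × ℝ × ℝ)) (hTn : ∀ l ∈ T, l.1 ≠ 0 ∨ l.2.1 ≠ 0)
    (hfr : frontier A ⊆ C ∪ ⋃ l ∈ T, {x | l.1 * x 0 + l.2.1 * x 1 = l.2.2})
    -- the group generated by the linear parts
    (Γ : Submonoid (Matrix (Fin 2) (Fin 2) ℝ))
    (hΓ : Γ = Submonoid.closure {m | ∃ i j, m = g i * (g j).transpose}) (i0 : Fin p)
    (hyp : (∃ (n : ℕ) (e : Fin n → Matrix (Fin 2) (Fin 2) ℝ), Function.Injective e ∧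
        (∀ a, e a * (e a).transpose = 1) ∧ (∀ a b, ∃ d, e d = e a * e b) ∧
        (∀ a, ∃ d, e d = (e a).transpose) ∧ (∀ i, ∃ d, e d = g i * (g i0).transpose) ∧
        ¬ (p : ℤ) ^ (Set.ncard (Set.range fun a => Submodule.span ℝ {fun k => e a k 0})) ∣
          (Matrix.of fun a b : Fin n => ((Set.ncard {i | e a * (g i * (g i0).transpose) = e b} : ℕ) : ℤ)).det) ∨
      (∀ X : Matrix (Fin 2) (Fin 2) ℝ →₀ ZMod p, (∀ k, k ∉ Γ → X k = 0) →
        (∀ k ∈ Γ, ∑ i, X (k * (g i * (g i0).transpose)) = 0) → X = 0)) :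
    False :=
  Pool.Agent.SQG.fin_b p hp hp2 A g hg c P hP hreg hdisj hcov C hC hCl T hTn hfr Γ hΓ i0 hyp

end Pool.Agent.Results.MP_a5d497_co.GroupDeterminant
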