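import Pool.Agent.SQH.Fin3

/-!
# Dissecting a square into a prime number of congruent pieces: the sum of the isometries is no zero divisor

Let `p` be an odd prime.  Let the unit square be dissected into `p` congruent pieces `P i = g i A + c i` (regular closed
sets with connected disjoint interiors, `g i` arbitrary real orthogonal matrices).  Let `Γ` be the group generated by
the linear parts `g i * (g j)ᵀ` of the isometries between the pieces (it is closed under inverses, so it is the monoid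
generated by them).  `hshape`: `Γ` is finite and `A` is arbitrary, or the boundary of `A` is contained in the union of
finitely many lines and of a closed set `C` which meets every line in finitely many points (for example: `A` is a
polygon, or is bounded by finitely many real analytic arcs).

`hyp`: one of the following holds.
(1) There is a prime `q` which does not divide `p * ∑ i, det (g i)` (for example `q = 2`) such that the order of every
rotation of finite order in `Γ` is a power of `q`.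
(2) No nonzero element `X` of the group ring `ℤ[Γ]` satisfies both `X * ∑ i, [g i * (g i0)ᵀ] = 0` and
`X * ∑ s, [s] = 0`, where `s` runs through the symmetries of the square in `Γ` (signed permutation matrices).  This holds
in particular if `Γ` contains no symmetry of the square except `1` (then the second condition is `X = 0`), and if
`∑ i, [g i * (g i0)ᵀ]` is no zero divisor.
(3) The sum `∑ i, [f i]` of the isometries `f i : x ↦ g i x + c i` is no zero divisor in the group ring of the group of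
isometries of the plane.

Conclusion: the dissection is one of the two strip dissections, or the following four things hold: all `g i * (g j)ᵀ` are
signed permutation matrices; two of the pieces differ by a quarter turn (some `(g i)ᵀ * g j` is not symmetric); `p`
divides `det (∑ i, g i)` (and if `p = 3` modulo `4` there are pieces of both orientations); all pieces are rectilinear
(their boundaries lie in finitely many lines parallel to the sides of the square).
-/

set_option autoImplicit false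

namespace Pool.Agent.Results.MP_a5d497_co.GroupRing

theorem result (p : ℕ) (hp : p.Prime) (hp2 : p ≠ 2) (A : Set (EuclideanSpace ℝ (Fin 2)))
    (g : Fin p → Matrix (Fin 2) (Fin 2) ℝ) (hg : ∀ i, g i * (g i).transpose = 1)
    (c : Fin p → EuclideanSpace ℝ (Fin 2)) (P : Fin p → Set (EuclideanSpace ℝ (Fin 2)))
    (hP : ∀ i, P i = {x | ∃ a ∈ A, ∀ k, x k = (∑ l, g i k l * a l) + c i k})
    (hreg : ∀ i, closure (interior (P i)) = P i)
    (hconn : ∀ i, IsConnected (interior (P i)))
    (hdisj : ∀ i j, i ≠ j → Disjoint (interior (P i)) (interior (P j)))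
    (hcov : (⋃ i, P i) = {x : EuclideanSpace ℝ (Fin 2) | ∀ c, 0 ≤ x c ∧ x c ≤ 1})
    -- the group generated by the linear parts
    (Γ : Submonoid (Matrix (Fin 2) (Fin 2) ℝ))
    (hΓ : Γ = Submonoid.closure {m | ∃ i j, m = g i * (g j).transpose})
    -- `Γ` is finite, or the boundary of `A` lies in `C` and in the lines of the finite set `T`
    (hshape : (Γ : Set (Matrix (Fin 2) (Fin 2) ℝ)).Finite ∨
      ∃ (C : Set (EuclideanSpace ℝ (Fin 2))) (T : Finset (ℝ × ℝ × ℝ)), IsClosed C ∧
        (∀ l : ℝ × ℝ × ℝ, (l.1 ≠ 0 ∨ l.2.1 ≠ 0) → (C ∩ {x | l.1 * x 0 + l.2.1 * x 1 = l.2.2}).Finite) ∧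
        (∀ l ∈ T, l.1 ≠ 0 ∨ l.2.1 ≠ 0) ∧
        frontier A ⊆ C ∪ ⋃ l ∈ T, {x | l.1 * x 0 + l.2.1 * x 1 = l.2.2})
    (hyp :
      (∃ q : ℕ, q.Prime ∧ (¬ ∃ n : ℤ, (p : ℝ) * ∑ i, (g i).det = q * n) ∧
        ∀ k ∈ Γ, k.det = 1 → (∃ n : ℕ, 0 < n ∧ k ^ n = 1) → ∃ a : ℕ, k ^ (q ^ a) = 1) ∨
      (∃ i0, ∀ X : Matrix (Fin 2) (Fin 2) ℝ →₀ ℤ, (∀ k, k ∉ Γ → X k = 0) →
        (∀ k ∈ Γ, ∑ i, X (k * (g i0 * (g i).transpose)) = 0) →
        (∀ k ∈ Γ, ∑ᶠ s ∈ {s | s ∈ Γ ∧ ∀ x y, s x y = 0 ∨ s x y = 1 ∨ s x y = -1}, X (k * s) = 0) → X = 0) ∨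
      (∃ f : Fin p → (EuclideanSpace ℝ (Fin 2) ≃ᵢ EuclideanSpace ℝ (Fin 2)),
        (∀ i x k, f i x k = (∑ l, g i k l * x l) + c i k) ∧
        ∀ X : (EuclideanSpace ℝ (Fin 2) ≃ᵢ EuclideanSpace ℝ (Fin 2)) →₀ ℤ,
          (∀ φ, ∑ i, X (φ * f i) = 0) → X = 0)) :
    (∃ σ : Equiv.Perm (Fin p),
      (∀ k : Fin p, P (σ k) =
        {x : EuclideanSpace ℝ (Fin 2) | (∀ c, 0 ≤ x c ∧ x c ≤ 1) ∧
          ((k : ℕ) : ℝ) / p ≤ x 1 ∧ x 1 ≤ (((k : ℕ) : ℝ) + 1) / p}) ∨
      (∀ k : Fin p, P (σ k) =
        {x : EuclideanSpace ℝ (Fin 2) | (∀ c, 0 ≤ x c ∧ x c ≤ 1) ∧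
          ((k : ℕ) : ℝ) / p ≤ x 0 ∧ x 0 ≤ (((k : ℕ) : ℝ) + 1) / p})) ∨
    ((∀ i j x y, (g i * (g j).transpose) x y = 0 ∨ (g i * (g j).transpose) x y = 1 ∨
        (g i * (g j).transpose) x y = -1) ∧
      (∃ i j, ((g i).transpose * g j).transpose ≠ (g i).transpose * g j) ∧
      (∃ n : ℤ, (∑ i, g i).det = p * n) ∧
      (p % 4 = 3 → ∃ i j, (g i).det ≠ (g j).det) ∧
      ∃ S : Finset ℝ, ∀ i, frontier (P i) ⊆ {x | x 0 ∈ S ∨ x 1 ∈ S}) :=
  Pool.Agent.SQH.fin_h p hp hp2 A g hg c P hP hreg hconn hdisj hcov Γ hΓ hshape hyp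

end Pool.Agent.Results.MP_a5d497_co.GroupRing
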